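import Pool.Agent.Helper3.TG.GoalsTr

/-!
# Project TG (MP_a41896_nt), packet THN
-/

set_option autoImplicit false

namespace Pool.Agent.Helper83.TG.THN

open Pool.Agent.Helper3.TG
open WeierstrassCurve

/-- `α = β = γ = 0` is impossible. -/
theorem nondeg {Ω : Type} [Field Ω] (b₂ b₄ b₆ b₈ : Ω) (hrel : 4 * b₈ = b₂ * b₆ - b₄ ^ 2)
    (hΔ : -b₂ ^ 2 * b₈ - 8 * b₄ ^ 3 - 27 * b₆ ^ 2 + 9 * b₂ * b₄ * b₆ ≠ 0) (p q : Fin 2 → Ω)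
    (hp : p 1 = 1 ∨ p = ![1, 0]) (hq : q 1 = 1 ∨ q = ![1, 0])
    (hα : (p 0 * q 1 - q 0 * p 1) ^ 2 = 0)
    (hβ : -2 * (p 0 ^ 2 * q 0 * q 1 + p 0 * p 1 * q 0 ^ 2) - b₂ * (p 0 * p 1 * q 0 * q 1) -
      b₄ * (q 0 * q 1 * p 1 ^ 2 + p 0 * p 1 * q 1 ^ 2) - b₆ * (p 1 ^ 2 * q 1 ^ 2) = 0)
    (hγ : p 0 ^ 2 * q 0 ^ 2 - b₄ * (p 0 * p 1 * q 0 * q 1) -
      b₆ * (p 0 * p 1 * q 1 ^ 2 + q 0 * q 1 * p 1 ^ 2) - b₈ * (p 1 ^ 2 * q 1 ^ 2) = 0) : False := by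
  have h0 : p 0 * q 1 - q 0 * p 1 = 0 := by
    simpa using hα
  rcases hp with hp | hp
  · rcases hq with hq | hq
    · rw [hp, hq] at h0 hβ hγ
      have e : q 0 = p 0 := by linear_combination -h0
      rw [e] at hβ hγ
      apply hΔ
      linear_combination (-(48 * p 0 ^ 2 + 8 * b₂ * p 0 + 32 * b₄ - b₂ ^ 2)) * hγ -
        (12 * p 0 ^ 3 - b₂ * p 0 ^ 2 - 10 * b₄ * p 0 + b₂ * b₄ - 27 * b₆) * hβ +
        (-(12 * p 0 ^ 2 + 2 * b₂ * p 0 + 8 * b₄)) * hrel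
    · rw [hp, hq] at h0
      simp at h0
  · rcases hq with hq | hq
    · rw [hp, hq] at h0
      simp at h0
    · rw [hp, hq] at hγ
      simp at hγ

theorem t : THN := by
  intro K _ _ w hw Ω _ _ F p q r hp hq hr hTH hpa hqa
  rcases hr with hr | hr
  swap
  · rw [hr]
    simpa using (isAlgebraic_one : IsAlgebraic F (1 : Ω))
  obtain ⟨b₂, hb₂⟩ : ∃ b : Ω, b = algebraMap K Ω w.b₂ := ⟨_, rfl⟩
  obtain ⟨b₄, hb₄⟩ : ∃ b : Ω, b = algebraMap K Ω w.b₄ := ⟨_, rfl⟩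
  obtain ⟨b₆, hb₆⟩ : ∃ b : Ω, b = algebraMap K Ω w.b₆ := ⟨_, rfl⟩
  obtain ⟨b₈, hb₈⟩ : ∃ b : Ω, b = algebraMap K Ω w.b₈ := ⟨_, rfl⟩
  have hrel : 4 * b₈ = b₂ * b₆ - b₄ ^ 2 := by
    have := congrArg (algebraMap K Ω) w.b_relation
    simp only [map_mul, map_sub, map_pow, map_ofNat] at this
    rw [hb₂, hb₄, hb₆, hb₈]
    exact this
  have hΔ : -b₂ ^ 2 * b₈ - 8 * b₄ ^ 3 - 27 * b₆ ^ 2 + 9 * b₂ * b₄ * b₆ ≠ 0 := by
    have h1 : w.Δ ≠ 0 := hw.isUnit.ne_zero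
    have h2 : algebraMap K Ω w.Δ ≠ 0 := (map_ne_zero _).2 h1
    unfold WeierstrassCurve.Δ at h2
    simp only [map_add, map_mul, map_sub, map_neg, map_pow, map_ofNat] at h2
    rw [hb₂, hb₄, hb₆, hb₈]
    exact h2
  obtain ⟨A, hA⟩ : ∃ A : IntermediateField F Ω, A = algebraicClosure F Ω := ⟨_, rfl⟩
  have hmem : ∀ x : Ω, IsAlgebraic F x → x ∈ A := fun x hx => by
    rw [hA]
    exact mem_algebraicClosure_iff.2 hx
  have hK : ∀ x : K, algebraMap K Ω x ∈ A := fun x => by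
    have h1 : algebraMap K Ω x ∈ F := F.algebraMap_mem x
    exact A.algebraMap_mem ⟨_, h1⟩
  have m2 : b₂ ∈ A := hb₂ ▸ hK _
  have m4 : b₄ ∈ A := hb₄ ▸ hK _
  have m6 : b₆ ∈ A := hb₆ ▸ hK _
  have m8 : b₈ ∈ A := hb₈ ▸ hK _
  have p0 : p 0 ∈ A := hmem _ hpa
  have q0 : q 0 ∈ A := hmem _ hqa
  have p1 : p 1 ∈ A := by
    rcases hp with h | h
    · rw [h]; exact A.one_mem
    · rw [h]; exact A.zero_mem
  have q1 : q 1 ∈ A := by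
    rcases hq with h | h
    · rw [h]; exact A.one_mem
    · rw [h]; exact A.zero_mem
  obtain ⟨α, hα⟩ : ∃ α : Ω, α = (p 0 * q 1 - q 0 * p 1) ^ 2 := ⟨_, rfl⟩
  obtain ⟨β, hβ⟩ : ∃ β : Ω, β = -2 * (p 0 ^ 2 * q 0 * q 1 + p 0 * p 1 * q 0 ^ 2) -
      b₂ * (p 0 * p 1 * q 0 * q 1) -
      b₄ * (q 0 * q 1 * p 1 ^ 2 + p 0 * p 1 * q 1 ^ 2) - b₆ * (p 1 ^ 2 * q 1 ^ 2) := ⟨_, rfl⟩
  obtain ⟨γ, hγ⟩ : ∃ γ : Ω, γ = p 0 ^ 2 * q 0 ^ 2 - b₄ * (p 0 * p 1 * q 0 * q 1) -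
      b₆ * (p 0 * p 1 * q 1 ^ 2 + q 0 * q 1 * p 1 ^ 2) - b₈ * (p 1 ^ 2 * q 1 ^ 2) := ⟨_, rfl⟩
  have n2 : (2 : Ω) ∈ A := by
    have := A.natCast_mem 2
    simpa using this
  have mα : α ∈ A := by
    rw [hα]
    exact pow_mem (sub_mem (mul_mem p0 q1) (mul_mem q0 p1)) 2
  have mβ : β ∈ A := by
    rw [hβ]
    refine sub_mem (sub_mem (sub_mem (mul_mem (neg_mem n2) (add_mem ?_ ?_)) (mul_mem m2 ?_))
      (mul_mem m4 (add_mem ?_ ?_))) (mul_mem m6 ?_)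
    · exact mul_mem (mul_mem (pow_mem p0 2) q0) q1
    · exact mul_mem (mul_mem p0 p1) (pow_mem q0 2)
    · exact mul_mem (mul_mem (mul_mem p0 p1) q0) q1
    · exact mul_mem (mul_mem q0 q1) (pow_mem p1 2)
    · exact mul_mem (mul_mem p0 p1) (pow_mem q1 2)
    · exact mul_mem (pow_mem p1 2) (pow_mem q1 2)
  have mγ : γ ∈ A := by
    rw [hγ]
    refine sub_mem (sub_mem (sub_mem ?_ (mul_mem m4 ?_)) (mul_mem m6 (add_mem ?_ ?_)))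
      (mul_mem m8 ?_)
    · exact mul_mem (pow_mem p0 2) (pow_mem q0 2)
    · exact mul_mem (mul_mem (mul_mem p0 p1) q0) q1
    · exact mul_mem (mul_mem p0 p1) (pow_mem q1 2)
    · exact mul_mem (mul_mem q0 q1) (pow_mem p1 2)
    · exact mul_mem (pow_mem p1 2) (pow_mem q1 2)
  have heq : α * r 0 ^ 2 + β * r 0 + γ = 0 := by
    have h1 : THh (w.map (algebraMap K Ω)) p q r = 0 := hTH
    unfold THh at h1
    rw [map_b₂, map_b₄, map_b₆, map_b₈, ← hb₂, ← hb₄, ← hb₆, ← hb₈, hr] at h1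
    rw [hα, hβ, hγ]
    linear_combination h1
  -- a nonzero polynomial over `A`
  obtain ⟨P, hP⟩ : ∃ P : Polynomial A, P = Polynomial.C ⟨α, mα⟩ * Polynomial.X ^ 2 +
      Polynomial.C ⟨β, mβ⟩ * Polynomial.X + Polynomial.C ⟨γ, mγ⟩ := ⟨_, rfl⟩
  have hP0 : P ≠ 0 := by
    intro h
    have c2 : P.coeff 2 = ⟨α, mα⟩ := by
      rw [hP]
      simp [Polynomial.coeff_X, Polynomial.coeff_C]
    have c1 : P.coeff 1 = ⟨β, mβ⟩ := by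
      rw [hP]
      simp [Polynomial.coeff_X_pow, Polynomial.coeff_C]
    have c0 : P.coeff 0 = ⟨γ, mγ⟩ := by
      rw [hP]
      simp [Polynomial.coeff_X_pow]
    rw [h, Polynomial.coeff_zero] at c2 c1 c0
    have a2 : α = 0 := (congrArg Subtype.val c2).symm
    have a1 : β = 0 := (congrArg Subtype.val c1).symm
    have a0 : γ = 0 := (congrArg Subtype.val c0).symm
    exact nondeg b₂ b₄ b₆ b₈ hrel hΔ p q hp hq (hα ▸ a2) (hβ ▸ a1) (hγ ▸ a0)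
  have hroot : Polynomial.aeval (r 0) P = 0 := by
    rw [hP]
    simp only [map_add, map_mul, map_pow, Polynomial.aeval_C, Polynomial.aeval_X]
    exact heq
  have hralg : IsAlgebraic A (r 0) := ⟨P, hP0, hroot⟩
  subst hA
  exact hralg.restrictScalars F

end Pool.Agent.Helper83.TG.THN
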